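import Mathlib

/-!
# Six strict local non-global minimizers of a homogeneous quadratic program with two constraints

The problem `min { q₀ x : q₁ x = 1, q₂ x ≤ 1 }`, `q_i x = xᵀ A_i x` with real symmetric matrices
`A_i`, can have six strict local non-global minimizers, already for `3 × 3` matrices. So the bound
four fails.

Idea. The matrices are chosen such that `q₁ - q₂ = x₀ x₂ - x₁²`. The boundary `q₁ = q₂ = 1` is then
parametrised by the points `(1, t, t²)` of a conic, on which `q₀ / q₁` is a quotient of two quartics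
in `t`. This quotient has three strict local minima on the arc where `q₁ > 0`, at `t = 0, 1, ∞`. The
forms are extended from the conic such that the multiplier of the inequality is positive at all
three, and such that `q₀` takes a smaller value at a feasible point off the conic.
-/

set_option autoImplicit false

open Matrix

namespace Pool.Agent.Results.MP_4a3f67_an.SixMinimizers

/-- The quadratic form `xᵀ A x`. -/
def qf {n : ℕ} (A : Matrix (Fin n) (Fin n) ℝ) (x : Fin n → ℝ) : ℝ := x ⬝ᵥ (A *ᵥ x)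

/-- The feasible set `{x : xᵀ A₁ x = 1, xᵀ A₂ x ≤ 1}`. -/
def feasible {n : ℕ} (A₁ A₂ : Matrix (Fin n) (Fin n) ℝ) : Set (Fin n → ℝ) :=
  {x | qf A₁ x = 1 ∧ qf A₂ x ≤ 1}

/-- `p` is a strict local minimizer of `xᵀ A₀ x` on the feasible set (the topology of `ℝⁿ` does not
depend on the norm; `‖ ‖` is the maximum norm here). -/
def IsStrictLocalMinimizer {n : ℕ} (A₀ A₁ A₂ : Matrix (Fin n) (Fin n) ℝ) (p : Fin n → ℝ) : Prop :=
  p ∈ feasible A₁ A₂ ∧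
    ∃ ε : ℝ, 0 < ε ∧ ∀ x ∈ feasible A₁ A₂, 0 < ‖x - p‖ → ‖x - p‖ < ε → qf A₀ p < qf A₀ x

/-- `p` is not a global minimizer: some feasible point has a smaller value. -/
def IsNonGlobal {n : ℕ} (A₀ A₁ A₂ : Matrix (Fin n) (Fin n) ℝ) (p : Fin n → ℝ) : Prop :=
  ∃ x ∈ feasible A₁ A₂, qf A₀ x < qf A₀ p

/-- the square of the Euclidean norm -/
def N (u : Fin 3 → ℝ) : ℝ := u 0 ^ 2 + u 1 ^ 2 + u 2 ^ 2

theorem N_le {u : Fin 3 → ℝ} {ε : ℝ} (h : ‖u‖ < ε) : N u ≤ 3 * ε ^ 2 := by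
  have h0 := norm_le_pi_norm u 0
  have h1 := norm_le_pi_norm u 1
  have h2 := norm_le_pi_norm u 2
  rw [Real.norm_eq_abs] at h0 h1 h2
  have e0 : u 0 ^ 2 ≤ ε ^ 2 := sq_le_sq' (by linarith [neg_abs_le (u 0)]) (by linarith [le_abs_self (u 0)])
  have e1 : u 1 ^ 2 ≤ ε ^ 2 := sq_le_sq' (by linarith [neg_abs_le (u 1)]) (by linarith [le_abs_self (u 1)])
  have e2 : u 2 ^ 2 ≤ ε ^ 2 := sq_le_sq' (by linarith [neg_abs_le (u 2)]) (by linarith [le_abs_self (u 2)])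
  unfold N
  linarith

theorem N_pos {u : Fin 3 → ℝ} (h : 0 < ‖u‖) : 0 < N u := by
  have hne : u ≠ 0 := norm_pos_iff.mp h
  by_contra hc
  apply hne
  unfold N at hc
  have h0 : u 0 = 0 := by nlinarith [sq_nonneg (u 0), sq_nonneg (u 1), sq_nonneg (u 2)]
  have h1 : u 1 = 0 := by nlinarith [sq_nonneg (u 0), sq_nonneg (u 1), sq_nonneg (u 2)]
  have h2 : u 2 = 0 := by nlinarith [sq_nonneg (u 0), sq_nonneg (u 1), sq_nonneg (u 2)]
  funext i
  fin_cases i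
  · exact h0
  · exact h1
  · exact h2

/-- Second order sufficient condition, with explicit constants. -/
theorem strict_of (q₀ q₁ q₂ b₁ b₂ W : (Fin 3 → ℝ) → ℝ) (p : Fin 3 → ℝ) (l μ : ℝ) (hμ : 1 ≤ μ)
    (h1 : ∀ u, q₁ (p + u) = 1 + 2 * b₁ u + q₁ u)
    (h2 : ∀ u, q₂ (p + u) = 1 + 2 * b₂ u + q₂ u)
    (h0 : ∀ u, q₀ (p + u) = q₀ p + W u + l * (2 * b₁ u + q₁ u) - μ * (2 * b₂ u + q₂ u))
    (hW : ∀ u, N u ≤ W u + 10 ^ 6 * (b₁ u ^ 2 + b₂ u ^ 2))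
    (hq1 : ∀ u, q₁ u ^ 2 ≤ 10 ^ 6 * N u ^ 2) (hq2 : ∀ u, q₂ u ^ 2 ≤ 10 ^ 6 * N u ^ 2)
    (hb2 : ∀ u, b₂ u ^ 2 ≤ 10 ^ 3 * N u) :
    ∃ ε : ℝ, 0 < ε ∧ ∀ x : Fin 3 → ℝ, q₁ x = 1 → q₂ x ≤ 1 → 0 < ‖x - p‖ → ‖x - p‖ < ε →
      q₀ p < q₀ x := by
  refine ⟨1 / 10 ^ 11, by norm_num, ?_⟩
  intro x hx1 hx2 hpos hlt
  set u := x - p with hu
  have hx : x = p + u := by rw [hu]; abel
  have hNpos := N_pos hpos
  have hNle := N_le hlt
  have hN : N u ≤ 1 / 10 ^ 21 := by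
    refine hNle.trans ?_
    norm_num
  rw [hx, h1] at hx1
  rw [hx, h2] at hx2
  rw [hx, h0]
  have hb1 : b₁ u = - q₁ u / 2 := by linarith
  -- the slack
  obtain ⟨τ, hτ⟩ : ∃ τ : ℝ, τ = -(2 * b₂ u + q₂ u) := ⟨_, rfl⟩
  have hτ0 : 0 ≤ τ := by rw [hτ]; linarith
  have hb2u := hb2 u
  have hq2u := hq2 u
  have hq1u := hq1 u
  have hWu := hW u
  have habs2 : |b₂ u| ≤ 1 / 10 ^ 8 := by
    apply abs_le_of_sq_le_sq _ (by norm_num)
    calc b₂ u ^ 2 ≤ 10 ^ 3 * N u := hb2u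
      _ ≤ 10 ^ 3 * (1 / 10 ^ 21) := by gcongr
      _ ≤ (1 / 10 ^ 8) ^ 2 := by norm_num
  have habsq : |q₂ u| ≤ 1 / 10 ^ 8 := by
    apply abs_le_of_sq_le_sq _ (by norm_num)
    calc q₂ u ^ 2 ≤ 10 ^ 6 * N u ^ 2 := hq2u
      _ ≤ 10 ^ 6 * (1 / 10 ^ 21) ^ 2 := by gcongr
      _ ≤ (1 / 10 ^ 8) ^ 2 := by norm_num
  have hτle : τ ≤ 3 / 10 ^ 8 := by
    rw [hτ]
    have := neg_abs_le (b₂ u)
    have := neg_abs_le (q₂ u)
    linarith
  have hN2 : N u ^ 2 ≤ (1 / 10 ^ 21) * N u := by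
    rw [sq]
    gcongr
  have hb1sq : b₁ u ^ 2 ≤ 10 ^ 6 * N u ^ 2 := by
    rw [hb1]
    nlinarith [sq_nonneg (q₁ u)]
  have hb2sq : b₂ u ^ 2 ≤ τ ^ 2 + 10 ^ 6 * N u ^ 2 := by
    have : b₂ u = -(τ + q₂ u) / 2 := by rw [hτ]; ring
    rw [this]
    nlinarith [sq_nonneg (τ - q₂ u), sq_nonneg τ, sq_nonneg (q₂ u)]
  have hτsq : τ ^ 2 ≤ 3 / 10 ^ 8 * τ := by
    rw [sq]
    gcongr
  have key : 0 < W u + μ * τ := by
    have h3 : W u ≥ N u - 10 ^ 6 * (10 ^ 6 * N u ^ 2 + (τ ^ 2 + 10 ^ 6 * N u ^ 2)) := by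
      nlinarith
    have h4 : μ * τ ≥ τ := by nlinarith
    nlinarith
  have e1 : 2 * b₁ u + q₁ u = 0 := by rw [hb1]; ring
  rw [e1]
  have e2 : -(μ * (2 * b₂ u + q₂ u)) = μ * τ := by rw [hτ]; ring
  linarith

/-- the matrix of the objective -/
noncomputable def A₀ : Matrix (Fin 3) (Fin 3) ℝ := !![30, 60, -179/2; 60, 89, -150; -179/2, -150, 240]

/-- the matrix of the equality constraint -/
noncomputable def A₁ : Matrix (Fin 3) (Fin 3) ℝ := !![1, 2, -3; 2, 66/25, -5/2; -3, -5/2, 4]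

/-- the matrix of the inequality constraint -/
noncomputable def A₂ : Matrix (Fin 3) (Fin 3) ℝ := !![1, 2, -7/2; 2, 91/25, -5/2; -7/2, -5/2, 4]

theorem qf0 (x : Fin 3 → ℝ) : qf A₀ x = 30 * x 0 ^ 2 + 120 * x 0 * x 1 + 89 * x 1 ^ 2
    - 300 * x 1 * x 2 + 240 * x 2 ^ 2 - 179 * x 0 * x 2 := by
  simp [qf, A₀, Matrix.mulVec, dotProduct, Fin.sum_univ_three]
  ring

theorem qf1 (x : Fin 3 → ℝ) : qf A₁ x = x 0 ^ 2 + 4 * x 0 * x 1 + 66 / 25 * x 1 ^ 2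
    - 5 * x 1 * x 2 + 4 * x 2 ^ 2 - 6 * x 0 * x 2 := by
  simp [qf, A₁, Matrix.mulVec, dotProduct, Fin.sum_univ_three]
  ring

theorem qf2 (x : Fin 3 → ℝ) : qf A₂ x = x 0 ^ 2 + 4 * x 0 * x 1 + 91 / 25 * x 1 ^ 2
    - 5 * x 1 * x 2 + 4 * x 2 ^ 2 - 7 * x 0 * x 2 := by
  simp [qf, A₂, Matrix.mulVec, dotProduct, Fin.sum_univ_three]
  ring

theorem sq_bound1 (u : Fin 3 → ℝ) : qf A₁ u ^ 2 ≤ 10 ^ 6 * N u ^ 2 := by
  have h : |qf A₁ u| ≤ 10 ^ 3 * N u := by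
    rw [qf1, abs_le]
    unfold N
    constructor <;>
    nlinarith [sq_nonneg (u 0), sq_nonneg (u 1), sq_nonneg (u 2), sq_nonneg (u 0 + u 1),
      sq_nonneg (u 0 - u 1), sq_nonneg (u 1 + u 2), sq_nonneg (u 1 - u 2), sq_nonneg (u 0 + u 2),
      sq_nonneg (u 0 - u 2)]
  calc qf A₁ u ^ 2 = |qf A₁ u| ^ 2 := (sq_abs _).symm
    _ ≤ (10 ^ 3 * N u) ^ 2 := by gcongr
    _ = 10 ^ 6 * N u ^ 2 := by ring

theorem sq_bound2 (u : Fin 3 → ℝ) : qf A₂ u ^ 2 ≤ 10 ^ 6 * N u ^ 2 := by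
  have h : |qf A₂ u| ≤ 10 ^ 3 * N u := by
    rw [qf2, abs_le]
    unfold N
    constructor <;>
    nlinarith [sq_nonneg (u 0), sq_nonneg (u 1), sq_nonneg (u 2), sq_nonneg (u 0 + u 1),
      sq_nonneg (u 0 - u 1), sq_nonneg (u 1 + u 2), sq_nonneg (u 1 - u 2), sq_nonneg (u 0 + u 2),
      sq_nonneg (u 0 - u 2)]
  calc qf A₂ u ^ 2 = |qf A₂ u| ^ 2 := (sq_abs _).symm
    _ ≤ (10 ^ 3 * N u) ^ 2 := by gcongr
    _ = 10 ^ 6 * N u ^ 2 := by ring

/-- the three minimizers, up to sign -/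
noncomputable def P0 : Fin 3 → ℝ := ![1, 0, 0]
noncomputable def P1 : Fin 3 → ℝ := ![5/4, 5/4, 5/4]
noncomputable def P2 : Fin 3 → ℝ := ![0, 0, 1/2]

theorem strict0 : IsStrictLocalMinimizer A₀ A₁ A₂ P0 := by
  refine ⟨⟨?_, ?_⟩, ?_⟩
  · rw [qf1]; simp [P0]
  · rw [qf2]; simp [P0]
  have h := strict_of (qf A₀) (qf A₁) (qf A₂) (fun u => u 0 + 2 * u 1 - 3 * u 2)
    (fun u => u 0 + 2 * u 1 - 7 / 2 * u 2)
    (fun u => 54 / 5 * u 1 ^ 2 - 150 * u 1 * u 2 + 120 * u 2 ^ 2) P0 31 1 le_rfl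
    (fun u => by rw [qf1, qf1]; simp [P0]; ring)
    (fun u => by rw [qf2, qf2]; simp [P0]; ring)
    (fun u => by rw [qf0, qf0, qf1, qf2]; simp [P0]; ring)
    (fun u => by
      have : (54 / 5 * u 1 ^ 2 - 150 * u 1 * u 2 + 120 * u 2 ^ 2) +
          10 ^ 6 * ((u 0 + 2 * u 1 - 3 * u 2) ^ 2 + (u 0 + 2 * u 1 - 7 / 2 * u 2) ^ 2) - N u =
          1999999 * (u 0 + 4000000/1999999 * u 1 - 6500000/1999999 * u 2) ^ 2 +
          57999951/9999995 * (u 1 - 684999625/57999951 * u 2) ^ 2 +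
          7209360772294/57999951 * u 2 ^ 2 := by
        unfold N
        ring
      have h2 : 0 ≤ 1999999 * (u 0 + 4000000/1999999 * u 1 - 6500000/1999999 * u 2) ^ 2 +
          57999951/9999995 * (u 1 - 684999625/57999951 * u 2) ^ 2 +
          7209360772294/57999951 * u 2 ^ 2 := by positivity
      linarith)
    sq_bound1 sq_bound2
    (fun u => by
      unfold N
      nlinarith [sq_nonneg (u 0), sq_nonneg (u 1), sq_nonneg (u 2), sq_nonneg (u 0 - u 1),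
        sq_nonneg (u 1 + u 2), sq_nonneg (u 0 + u 2)])
  obtain ⟨ε, hε, h⟩ := h
  exact ⟨ε, hε, fun x hx => h x hx.1 hx.2⟩

theorem strict2 : IsStrictLocalMinimizer A₀ A₁ A₂ P2 := by
  refine ⟨⟨?_, ?_⟩, ?_⟩
  · rw [qf1]; simp [P2]; norm_num
  · rw [qf2]; simp [P2]; norm_num
  have h := strict_of (qf A₀) (qf A₁) (qf A₂) (fun u => -3/2 * u 0 - 5/4 * u 1 + 2 * u 2)
    (fun u => -7/4 * u 0 - 5/4 * u 1 + 2 * u 2)
    (fun u => -30 * u 0 ^ 2 - 120 * u 0 * u 1 + 558 / 5 * u 1 ^ 2) P2 241 181 (by norm_num)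
    (fun u => by rw [qf1, qf1]; simp [P2]; ring)
    (fun u => by rw [qf2, qf2]; simp [P2]; ring)
    (fun u => by rw [qf0, qf0, qf1, qf2]; simp [P2]; ring)
    (fun u => by
      have : (-30 * u 0 ^ 2 - 120 * u 0 * u 1 + 558 / 5 * u 1 ^ 2) +
          10 ^ 6 * ((-3/2 * u 0 - 5/4 * u 1 + 2 * u 2) ^ 2 +
            (-7/4 * u 0 - 5/4 * u 1 + 2 * u 2) ^ 2) - N u =
          5312469 * (u 0 + 4062440/5312469 * u 1 - 6500000/5312469 * u 2) ^ 2 +
          493172152357/26562345 * (u 1 - 782425000000/493172152357 * u 2) ^ 2 +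
          137475683847643/493172152357 * u 2 ^ 2 := by
        unfold N
        ring
      have h2 : 0 ≤ 5312469 * (u 0 + 4062440/5312469 * u 1 - 6500000/5312469 * u 2) ^ 2 +
          493172152357/26562345 * (u 1 - 782425000000/493172152357 * u 2) ^ 2 +
          137475683847643/493172152357 * u 2 ^ 2 := by positivity
      linarith)
    sq_bound1 sq_bound2
    (fun u => by
      unfold N
      nlinarith [sq_nonneg (u 0), sq_nonneg (u 1), sq_nonneg (u 2), sq_nonneg (u 0 - u 1),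
        sq_nonneg (u 1 + u 2), sq_nonneg (u 0 + u 2)])
  obtain ⟨ε, hε, h⟩ := h
  exact ⟨ε, hε, fun x hx => h x hx.1 hx.2⟩

theorem strict1 : IsStrictLocalMinimizer A₀ A₁ A₂ P1 := by
  refine ⟨⟨?_, ?_⟩, ?_⟩
  · rw [qf1]; simp [P1]; norm_num
  · rw [qf2]; simp [P1]; norm_num
  have h := strict_of (qf A₀) (qf A₁) (qf A₂) (fun u => 107/40 * u 1 - 15/8 * u 2)
    (fun u => -5/8 * u 0 + 157/40 * u 1 - 5/2 * u 2)
    (fun u => 30 * (u 0 ^ 2 + 4 * u 0 * u 1 + 3 * u 1 ^ 2 - 10 * u 1 * u 2 + 8 * u 2 ^ 2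
      - 6 * u 0 * u 2)) P1 1 1 le_rfl
    (fun u => by rw [qf1, qf1]; simp [P1]; ring)
    (fun u => by rw [qf2, qf2]; simp [P1]; ring)
    (fun u => by rw [qf0, qf0, qf1, qf2]; simp [P1]; ring)
    (fun u => by
      have : (30 * (u 0 ^ 2 + 4 * u 0 * u 1 + 3 * u 1 ^ 2 - 10 * u 1 * u 2 + 8 * u 2 ^ 2
            - 6 * u 0 * u 2)) +
          10 ^ 6 * ((107/40 * u 1 - 15/8 * u 2) ^ 2 +
            (-5/8 * u 0 + 157/40 * u 1 - 5/2 * u 2) ^ 2) - N u =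
          390654 * (u 0 - 2453065/390654 * u 1 + 781205/195327 * u 2) ^ 2 +
          2796149431481/390654 * (u 1 - 1960031655200/2796149431481 * u 2) ^ 2 +
          107875488167434/2796149431481 * u 2 ^ 2 := by
        unfold N
        ring
      have h2 : 0 ≤ 390654 * (u 0 - 2453065/390654 * u 1 + 781205/195327 * u 2) ^ 2 +
          2796149431481/390654 * (u 1 - 1960031655200/2796149431481 * u 2) ^ 2 +
          107875488167434/2796149431481 * u 2 ^ 2 := by positivity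
      linarith)
    sq_bound1 sq_bound2
    (fun u => by
      unfold N
      nlinarith [sq_nonneg (u 0), sq_nonneg (u 1), sq_nonneg (u 2), sq_nonneg (u 0 + u 1),
        sq_nonneg (u 1 + u 2), sq_nonneg (u 0 - u 2), sq_nonneg (u 0 + u 2)])
  obtain ⟨ε, hε, h⟩ := h
  exact ⟨ε, hε, fun x hx => h x hx.1 hx.2⟩

theorem qf_neg {n : ℕ} (A : Matrix (Fin n) (Fin n) ℝ) (x : Fin n → ℝ) : qf A (-x) = qf A x := by
  simp [qf, Matrix.mulVec_neg]

theorem strict_neg {n : ℕ} {B₀ B₁ B₂ : Matrix (Fin n) (Fin n) ℝ} {p : Fin n → ℝ}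
    (h : IsStrictLocalMinimizer B₀ B₁ B₂ p) : IsStrictLocalMinimizer B₀ B₁ B₂ (-p) := by
  obtain ⟨hp, ε, hε, h⟩ := h
  refine ⟨⟨by rw [qf_neg]; exact hp.1, by rw [qf_neg]; exact hp.2⟩, ε, hε, ?_⟩
  intro x hx h1 h2
  have e : ‖-x - p‖ = ‖x - -p‖ := by
    rw [← norm_neg]; congr 1; abel
  have := h (-x) ⟨by rw [qf_neg]; exact hx.1, by rw [qf_neg]; exact hx.2⟩ (by rw [e]; exact h1)
    (by rw [e]; exact h2)
  rw [qf_neg] at this
  rw [qf_neg]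
  exact this

theorem nonglobal {p : Fin 3 → ℝ} (h : 0 ≤ qf A₀ p) : IsNonGlobal A₀ A₁ A₂ p := by
  refine ⟨![45, 30, 35], ⟨?_, ?_⟩, ?_⟩
  · rw [qf1]; simp; norm_num
  · rw [qf2]; simp; norm_num
  · refine lt_of_lt_of_le ?_ h
    rw [qf0]; simp; norm_num

/-- **The homogeneous quadratic program with two constraints can have six strict local non-global
minimizers.** There are real symmetric `3 × 3` matrices `B₀, B₁, B₂` and a set of six points of `ℝ³`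
which are strict local minimizers of `xᵀ B₀ x` on `{x : xᵀ B₁ x = 1, xᵀ B₂ x ≤ 1}`, and none of
which is a global minimizer. -/
theorem result : ∃ B₀ B₁ B₂ : Matrix (Fin 3) (Fin 3) ℝ,
    B₀.IsSymm ∧ B₁.IsSymm ∧ B₂.IsSymm ∧
    ∃ S : Finset (Fin 3 → ℝ), S.card = 6 ∧
      ∀ p ∈ S, IsStrictLocalMinimizer B₀ B₁ B₂ p ∧ IsNonGlobal B₀ B₁ B₂ p := by
  refine ⟨A₀, A₁, A₂, ?_, ?_, ?_, ?_⟩
  · ext i j; fin_cases i <;> fin_cases j <;> simp [A₀]
  · ext i j; fin_cases i <;> fin_cases j <;> simp [A₁]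
  · ext i j; fin_cases i <;> fin_cases j <;> simp [A₂]
  classical
  have v0 : 0 ≤ qf A₀ P0 := by rw [qf0]; simp [P0]
  have v1 : 0 ≤ qf A₀ P1 := by rw [qf0]; simp [P1]; norm_num
  have v2 : 0 ≤ qf A₀ P2 := by rw [qf0]; simp [P2]
  refine ⟨{P0, -P0, P1, -P1, P2, -P2}, ?_, ?_⟩
  · have a0 : P0 0 = 1 := rfl
    have a1 : P1 0 = 5/4 := rfl
    have a2 : P2 0 = 0 := rfl
    have b0 : P0 2 = 0 := rfl
    have b1 : P1 2 = 5/4 := rfl
    have b2 : P2 2 = 1/2 := rfl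
    have sep : ∀ x y : Fin 3 → ℝ, (x 0 ≠ y 0 ∨ x 2 ≠ y 2) → x ≠ y := by
      rintro x y (h | h) rfl <;> exact h rfl
    rw [Finset.card_insert_of_notMem, Finset.card_insert_of_notMem, Finset.card_insert_of_notMem,
      Finset.card_insert_of_notMem, Finset.card_insert_of_notMem, Finset.card_singleton]
    all_goals
      simp only [Finset.mem_insert, Finset.mem_singleton, not_or]
      refine ?_
    · apply sep; right; rw [Pi.neg_apply, b2]; norm_num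
    · constructor <;> (apply sep; left; simp only [Pi.neg_apply, a1, a2]; norm_num)
    · refine ⟨?_, ?_, ?_⟩ <;> (apply sep; left; simp only [Pi.neg_apply, a1, a2]; norm_num)
    · refine ⟨?_, ?_, ?_, ?_⟩ <;> (apply sep; left; simp only [Pi.neg_apply, a0, a1, a2]; norm_num)
    · refine ⟨?_, ?_, ?_, ?_, ?_⟩ <;>
        (apply sep; left; simp only [Pi.neg_apply, a0, a1, a2]; norm_num)
  · intro p hp
    simp only [Finset.mem_insert, Finset.mem_singleton] at hp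
    rcases hp with rfl | rfl | rfl | rfl | rfl | rfl
    · exact ⟨strict0, nonglobal v0⟩
    · exact ⟨strict_neg strict0, nonglobal (by rw [qf_neg]; exact v0)⟩
    · exact ⟨strict1, nonglobal v1⟩
    · exact ⟨strict_neg strict1, nonglobal (by rw [qf_neg]; exact v1)⟩
    · exact ⟨strict2, nonglobal v2⟩
    · exact ⟨strict_neg strict2, nonglobal (by rw [qf_neg]; exact v2)⟩

end Pool.Agent.Results.MP_4a3f67_an.SixMinimizers
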